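import Pool.Agent.Lib.MP_b538eb_ag.Rees

open PowerSeries Finset TensorProduct

namespace Pool.Agent.Lib.MP_b538eb_ag

variable {R : Type} [CommRing R] [Algebra ℂ R]
variable {D : Type} [Ring D] [Algebra ℂ D] {br : R →ₗ[ℂ] R →ₗ[ℂ] R}

namespace Data

variable (H : Data D br)

/-- A linear section of the reduction map. -/
noncomputable def s (r : R) : H.A :=
  ⟨PowerSeries.mk fun d => H.q d r, fun m => by rw [coeff_mk]; exact H.q_mem _ _, fun j => by
    obtain ⟨N, hN, -⟩ := H.q_sum r
    exact ⟨N, fun m hm => by rw [coeff_mk, hN _ (by omega)]; exact zero_mem _⟩⟩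

theorem coeff_s (r : R) (d : ℕ) : coeff d (H.s r : PowerSeries D) = H.q d r :=
  coeff_mk d fun d => H.q d r

theorem π_s (r : R) : H.π (H.s r) = r := by
  obtain ⟨N, hN, h⟩ := H.q_sum r
  rw [H.π_eq _ N fun m hm => by rw [coeff_s, hN m hm, map_zero]]
  simpa only [coeff_s] using h

/-- The underlying series of the comparison map. -/
noncomputable def Φ₀ (r : PowerSeries R) : PowerSeries D :=
  PowerSeries.mk fun m => ∑ x ∈ antidiagonal m, H.q x.2 (coeff x.1 r)

theorem Φ₀_mem (r : PowerSeries R) : H.Φ₀ r ∈ H.A := by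
  refine ⟨fun m => ?_, fun j => ?_⟩
  · rw [Φ₀, coeff_mk]
    refine Submodule.sum_mem _ fun x hx => H.mono ?_ (H.q_mem _ _)
    have := mem_antidiagonal.1 hx
    omega
  · choose N hN _ using H.q_sum
    refine ⟨(range j).sup fun i => N (coeff i r), fun m hm => ?_⟩
    rw [Φ₀, coeff_mk]
    refine Submodule.sum_mem _ fun x hx => ?_
    have hx := mem_antidiagonal.1 hx
    by_cases h : x.1 < j
    · have : N (coeff x.1 r) ≤ (range j).sup fun i => N (coeff i r) :=
        le_sup (f := fun i => N (coeff i r)) (mem_range.2 h)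
      rw [hN _ _ (by omega)]
      exact zero_mem _
    · exact H.mono (by omega) (H.q_mem _ _)

theorem Φ₀_eq (r : PowerSeries R) :
    H.Φ₀ r = (H.s (coeff 0 r) : PowerSeries D) +
      X * H.Φ₀ (PowerSeries.mk fun p => coeff (p + 1) r) := by
  ext n
  rcases n with _ | n
  · simp [Φ₀, s]
  · rw [map_add, coeff_succ_X_mul, coeff_s, Φ₀, Φ₀, coeff_mk, coeff_mk,
      Finset.Nat.sum_antidiagonal_succ]
    simp

theorem Φ₀_add (r r' : PowerSeries R) : H.Φ₀ (r + r') = H.Φ₀ r + H.Φ₀ r' := by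
  ext n
  simp [Φ₀, sum_add_distrib]

theorem Φ₀_C (c : ℂ) (r : PowerSeries R) :
    H.Φ₀ (C (algebraMap ℂ R c) * r) = C (algebraMap ℂ D c) * H.Φ₀ r := by
  ext n
  simp only [Φ₀, coeff_mk, coeff_C_mul, ← Algebra.smul_def, map_smul, smul_sum]

theorem Φ₀_X (r : PowerSeries R) : H.Φ₀ (X * r) = X * H.Φ₀ r := by
  rw [Φ₀_eq]
  have h1 : (PowerSeries.mk fun p => coeff (p + 1) (X * r)) = r := by
    ext n; simp [coeff_succ_X_mul]
  have h2 : (H.s (coeff 0 (X * r)) : PowerSeries D) = 0 := by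
    ext n; simp [coeff_s]
  rw [h1, h2, zero_add]

theorem Φ₀_smul (c : PowerSeries ℂ) (r : PowerSeries R) :
    H.Φ₀ (c • r) = PowerSeries.map (algebraMap ℂ D) c * H.Φ₀ r := by
  ext n
  induction n generalizing c with
  | zero =>
    rw [Algebra.smul_def, algebraMap_apply'']
    simp only [Φ₀, coeff_mk, Finset.Nat.antidiagonal_zero, sum_singleton, coeff_mul, coeff_map,
      ← Algebra.smul_def, map_smul]
  | succ n ih =>
    have h := eq_X_mul_shift_add_const c
    generalize (PowerSeries.mk fun p => coeff (p + 1) c) = c' at h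
    generalize constantCoeff c = c₀ at h
    subst h
    have := ih c'
    rw [Algebra.smul_def, algebraMap_apply''] at this ⊢
    simp only [map_add, map_mul, map_X, map_C, add_mul, mul_assoc, Φ₀_add, Φ₀_C, Φ₀_X,
      coeff_succ_X_mul, this]

/-- The comparison map. -/
noncomputable def Φ : PowerSeries R →ₗ[PowerSeries ℂ] H.A where
  toFun r := ⟨H.Φ₀ r, H.Φ₀_mem r⟩
  map_add' r r' := Subtype.ext (H.Φ₀_add r r')
  map_smul' c r := Subtype.ext (H.Φ₀_smul c r)

theorem Φ_eq (r : PowerSeries R) : H.Φ r =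
    H.s (coeff 0 r) + (X : PowerSeries ℂ) • H.Φ (PowerSeries.mk fun p => coeff (p + 1) r) :=
  Subtype.ext (by rw [AddMemClass.coe_add, coe_X_smul]; exact H.Φ₀_eq r)

theorem X_smul_eq_zero {f : H.A} (h : (X : PowerSeries ℂ) • f = 0) : f = 0 := by
  have h := congrArg Subtype.val h
  rw [coe_X_smul] at h
  refine Subtype.ext ?_
  ext n
  have := congrArg (coeff (n + 1)) h
  simpa [coeff_succ_X_mul] using this

theorem Φ_inj : Function.Injective H.Φ := by
  rw [injective_iff_map_eq_zero]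
  intro r hr
  ext n
  induction n generalizing r with
  | zero =>
    have := congrArg H.π (H.Φ_eq r)
    rw [hr, map_zero, map_add, π_X_smul, π_s, add_zero] at this
    simpa using this.symm
  | succ n ih =>
    have := congrArg H.π (H.Φ_eq r)
    rw [hr, map_zero, map_add, π_X_smul, π_s, add_zero] at this
    have h2 := H.Φ_eq r
    have h3 : H.s 0 = 0 := Subtype.ext (by ext n; simp [coeff_s])
    rw [hr, ← this, h3, zero_add] at h2
    simpa using ih _ (H.X_smul_eq_zero h2.symm)

theorem Φ_surj : Function.Surjective H.Φ := by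
  have h0 : ∀ f : H.A, H.π (f - H.s (H.π f)) = 0 := fun f => by rw [map_sub, π_s, sub_self]
  choose T hT using fun f => (H.π_eq_zero _).1 (h0 f)
  have key : ∀ n (f : H.A), coeff n (H.Φ (PowerSeries.mk fun j => H.π (T^[j] f)) : PowerSeries D) =
      coeff n (f : PowerSeries D) := by
    intro n
    induction n with
    | zero =>
      intro f
      rw [Φ_eq]
      conv_rhs => rw [sub_eq_iff_eq_add'.1 (hT f)]
      simp [coe_X_smul]
    | succ n ih =>
      intro f
      rw [Φ_eq]
      conv_rhs => rw [sub_eq_iff_eq_add'.1 (hT f)]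
      have := ih (T f)
      simp only [AddMemClass.coe_add, coe_X_smul, map_add, coeff_succ_X_mul, coeff_mk,
        Function.iterate_succ, Function.comp, Function.iterate_zero, id, this]
  intro f
  exact ⟨_, Subtype.ext (PowerSeries.ext fun n => key n f)⟩

end Data

theorem complete_of_equiv {S M N : Type} [CommRing S] [AddCommGroup M] [AddCommGroup N]
    [Module S M] [Module S N] (I : Ideal S) (e : M ≃ₗ[S] N) [h : IsAdicComplete I M] :
    IsAdicComplete I N := by
  have hm : ∀ n (x y : M), x ≡ y [SMOD (I ^ n • ⊤ : Submodule S M)] ↔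
      e x ≡ e y [SMOD (I ^ n • ⊤ : Submodule S N)] := by
    intro n x y
    have : (I ^ n • ⊤ : Submodule S N) = (I ^ n • ⊤ : Submodule S M).map e.toLinearMap := by
      rw [Submodule.map_smul'', Submodule.map_top, LinearEquiv.range]
    rw [this, SModEq.sub_mem, SModEq.sub_mem, ← map_sub]
    constructor
    · exact fun h => ⟨_, h, rfl⟩
    · rintro ⟨z, hz, h⟩
      rwa [← e.injective h]
  refine { haus' := fun x hx => ?_, prec' := fun f hf => ?_ }
  · obtain ⟨x, rfl⟩ := e.surjective x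
    rw [h.haus' x fun n => (hm n x 0).2 (by simpa using hx n), map_zero]
  · obtain ⟨L, hL⟩ := h.prec' (fun n => e.symm (f n)) fun hmn => (hm _ _ _).2 (by simpa using hf hmn)
    exact ⟨e L, fun n => by simpa using (hm _ _ _).1 (hL n)⟩

theorem complete_series :
    IsAdicComplete (Ideal.span {(X : PowerSeries ℂ)}) (PowerSeries R) := by
  rw [← IsAdicComplete.map_algebraMap_iff (S := PowerSeries R), Ideal.map_span,
    Set.image_singleton, algebraMap_apply'', map_X]
  infer_instance

namespace Data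

variable (H : Data D br)

theorem isQuantization : IsQuantization (fun a b => br a b) H.π := by
  have e := LinearEquiv.ofBijective H.Φ ⟨H.Φ_inj, H.Φ_surj⟩
  have := complete_series (R := R)
  exact ⟨complete_of_equiv _ e, ⟨e.symm⟩, fun r => ⟨_, H.π_s r⟩, H.π_C, H.π_eq_zero, H.comm_π⟩

theorem X_pow_comm {ι : Type} [Fintype ι] (N : ℕ) (u : ι → D) (hu : ∀ i, u i ∈ H.F N)
    (h : ∀ m, ∀ d ∈ H.F m, ∃ b : ι → D, (∀ i, b i ∈ H.F (m + N)) ∧
      d = ∑ i, (u i * b i - b i * u i)) (f : H.A) :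
    ∃ a b : ι → H.A, (X : PowerSeries ℂ) ^ (N + N) • f = ∑ i, (a i * b i - b i * a i) := by
  classical
  have h' : ∀ d, (∃ m, d ∈ H.F m) → ∃ b : ι → D, (∀ m, d ∈ H.F m → ∀ i, b i ∈ H.F (m + N)) ∧
      d = ∑ i, (u i * b i - b i * u i) := by
    intro d hd
    obtain ⟨b, hb, hb'⟩ := h _ d (Nat.find_spec hd)
    exact ⟨b, fun m hm i => H.mono (by have := Nat.find_min' hd hm; omega) (hb i), hb'⟩
  choose b hb hb' using fun m => h' (coeff m (f : PowerSeries D)) ⟨m, f.2.1 m⟩
  have ha : ∀ i, X ^ N * C (u i) ∈ H.A := by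
    intro i
    refine ⟨fun m => ?_, fun j => ⟨N + 1, fun m hm => ?_⟩⟩
    · rw [coeff_X_pow_mul', coeff_C]
      split_ifs with h1 h2
      · exact H.mono h1 (hu i)
      all_goals exact zero_mem _
    · rw [coeff_X_pow_mul', if_pos (by omega), coeff_C, if_neg (by omega)]
      exact zero_mem _
  have hb2 : ∀ i, (X ^ N * PowerSeries.mk fun m => b m i) ∈ H.A := by
    intro i
    refine ⟨fun m => ?_, fun j => ?_⟩
    · rw [coeff_X_pow_mul', coeff_mk]
      split_ifs with h1
      · exact H.mono (by omega) (hb _ _ (f.2.1 _) i)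
      · exact zero_mem _
    · obtain ⟨M, hM⟩ := f.2.2 j
      refine ⟨M + N, fun m hm => ?_⟩
      rw [coeff_X_pow_mul', if_pos (by omega), coeff_mk]
      have h1 : m + j - N = (m - N) + j := by omega
      rw [h1]
      exact H.mono (by omega) (hb _ _ (hM _ (by omega)) i)
  refine ⟨fun i => ⟨_, ha i⟩, fun i => ⟨_, hb2 i⟩, Subtype.ext ?_⟩
  have hf : (f : PowerSeries D) = ∑ i, (C (u i) * (PowerSeries.mk fun m => b m i) -
      (PowerSeries.mk fun m => b m i) * C (u i)) := by
    ext n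
    rw [hb' n, map_sum]
    simp
  rw [coe_smul, map_pow, map_X, AddSubmonoidClass.coe_finsetSum, hf, mul_sum]
  refine sum_congr rfl fun i _ => ?_
  have hc : ∀ g : PowerSeries D, g * X ^ N = X ^ N * g := fun g => (commute_X_pow g N).eq
  simp only [AddSubgroupClass.coe_sub, MulMemClass.coe_mul, mul_sub, pow_add]
  rw [mul_assoc (X ^ N) (C (u i)), ← mul_assoc (C (u i)), hc (C (u i)),
    mul_assoc (X ^ N) (PowerSeries.mk _), ← mul_assoc (PowerSeries.mk _), hc (PowerSeries.mk _)]
  simp only [mul_assoc]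

end Data

theorem span_comm_top {A : Type} [Ring A] [Algebra (PowerSeries ℂ) A] {ι : Type} [Fintype ι] (N : ℕ)
    (h : ∀ f : A, ∃ a b : ι → A, (X : PowerSeries ℂ) ^ N • f = ∑ i, (a i * b i - b i * a i)) :
    Submodule.span (LaurentSeries ℂ)
      {x : LaurentSeries ℂ ⊗[PowerSeries ℂ] A | ∃ a b, x = a * b - b * a} = ⊤ := by
  rw [eq_top_iff]
  rintro x -
  induction x using TensorProduct.induction_on with
  | zero => exact zero_mem _
  | add x y hx hy => exact add_mem hx hy
  | tmul l f =>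
    obtain ⟨a, b, hab⟩ := h f
    have hX : algebraMap (PowerSeries ℂ) (LaurentSeries ℂ) (X ^ N) ≠ 0 := by
      rw [Ne, FaithfulSMul.algebraMap_eq_zero_iff]
      exact pow_ne_zero _ X_ne_zero
    have : l ⊗ₜ[PowerSeries ℂ] f = (l * (algebraMap (PowerSeries ℂ) (LaurentSeries ℂ) (X ^ N))⁻¹) •
        ((1 : LaurentSeries ℂ) ⊗ₜ[PowerSeries ℂ] ((X : PowerSeries ℂ) ^ N • f)) := by
      rw [← smul_tmul, smul_tmul', Algebra.smul_def (X ^ N : PowerSeries ℂ), smul_eq_mul, mul_one,
        mul_assoc, inv_mul_cancel₀ hX, mul_one]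
    rw [this, hab, tmul_sum]
    refine Submodule.smul_mem _ _ (Submodule.sum_mem _ fun i _ => Submodule.subset_span
      ⟨1 ⊗ₜ a i, 1 ⊗ₜ b i, ?_⟩)
    simp [tmul_sub]

end Pool.Agent.Lib.MP_b538eb_ag
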