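import Pool.Agent.Lib.MP_b538eb_ag.Plane
import Pool.Agent.Lib.MP_b538eb_ag.Free

open Polynomial Finset

namespace Pool.Agent.Lib.MP_b538eb_ag

/-- The group of integer shifts. -/
def Gr : Type := Multiplicative ℤ

instance : CommGroup Gr := inferInstanceAs (CommGroup (Multiplicative ℤ))

/-- The shift of a given size. -/
def g (k : ℤ) : Gr := Multiplicative.ofAdd k

/-- The size of a shift. -/
def w (x : Gr) : ℤ := Multiplicative.toAdd x

@[simp] theorem w_g (k : ℤ) : w (g k) = k := rfl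
@[simp] theorem g_w (x : Gr) : g (w x) = x := rfl
theorem g_add (k l : ℤ) : g k * g l = g (k + l) := rfl
theorem w_mul (x y : Gr) : w (x * y) = w x + w y := rfl
theorem g_inj {k l : ℤ} : g k = g l ↔ k = l := ⟨fun h => congrArg w h, fun h => h ▸ rfl⟩

noncomputable instance : MulSemiringAction Gr ℂ[X] where
  smul x p := taylor (-(w x : ℂ)) p
  one_smul p := by
    change taylor (-((0 : ℤ) : ℂ)) p = p
    simp
  mul_smul x y p := by
    change taylor (-(w (x * y) : ℂ)) p = taylor (-(w x : ℂ)) (taylor (-(w y : ℂ)) p)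
    rw [taylor_taylor, w_mul]; push_cast; ring_nf
  smul_zero x := map_zero (taylor _)
  smul_add x := map_add (taylor _)
  smul_one x := taylor_one _
  smul_mul x := taylor_mul _

instance : SMulCommClass Gr ℂ ℂ[X] where
  smul_comm x c p := map_smul (taylor (-(w x : ℂ))) c p

/-- Differential operators on the punctured line. -/
abbrev D : Type := SkewMonoidAlgebra ℂ[X] Gr

/-- The operator `p(θ) x ^ k`. -/
noncomputable def T (k : ℤ) : ℂ[X] →ₗ[ℂ] D := SkewMonoidAlgebra.lsingle ℂ (g k)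

theorem T_def (k : ℤ) (p : ℂ[X]) : T k p = SkewMonoidAlgebra.single (g k) p := rfl

theorem T_mul (k l : ℤ) (p q : ℂ[X]) : T k p * T l q = T (k + l) (p * taylor (-(k : ℂ)) q) :=
  SkewMonoidAlgebra.single_mul_single

theorem coeff_T (k l : ℤ) (p : ℂ[X]) : (T k p).coeff (g l) = if k = l then p else 0 := by
  classical
  rw [T_def, SkewMonoidAlgebra.coeff_single_apply]
  simp only [g_inj]

/-- The semigroup generated by 2 and 3. -/
def S (n : ℤ) : Prop := 0 ≤ n ∧ n ≠ 1

/-- Allowed coefficients in weight `k` and order at most `m`. -/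
noncomputable def Fk (k : ℤ) (m : ℕ) : Submodule ℂ ℂ[X] where
  carrier := {p | p.natDegree ≤ m ∧ ∀ t : ℤ, S (t - k) → ¬ S t → p.eval (t : ℂ) = 0}
  add_mem' := by
    rintro p q ⟨hp, hp'⟩ ⟨hq, hq'⟩
    exact ⟨natDegree_add_le_of_degree_le hp hq, fun t h h' => by simp [hp' t h h', hq' t h h']⟩
  zero_mem' := ⟨by simp, fun _ _ _ => by simp⟩
  smul_mem' := by
    rintro c p ⟨hp, hp'⟩
    exact ⟨(natDegree_smul_le c p).trans hp, fun t h h' => by simp [hp' t h h']⟩

/-- Differential operators on the cusp of order at most `m`. -/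
noncomputable def F (m : ℕ) : Submodule ℂ D where
  carrier := {a | ∀ k, a.coeff (g k) ∈ Fk k m}
  add_mem' := fun ha hb k => by
    rw [SkewMonoidAlgebra.coeff_add]; exact add_mem (ha k) (hb k)
  zero_mem' := fun k => zero_mem _
  smul_mem' := fun c a ha k => by
    rw [SkewMonoidAlgebra.coeff_smul]; exact Submodule.smul_mem _ c (ha k)

theorem T_mem {k : ℤ} {m : ℕ} {p : ℂ[X]} (h : p ∈ Fk k m) : T k p ∈ F m := fun l => by
  rw [coeff_T]
  split_ifs with h'
  · exact h' ▸ h
  · exact zero_mem _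

theorem F_ind {m : ℕ} {Q : D → Prop} (h0 : Q 0) (hadd : ∀ a b, Q a → Q b → Q (a + b))
    (hT : ∀ k p, p ∈ Fk k m → Q (T k p)) {a : D} (ha : a ∈ F m) : Q a := by
  rw [← SkewMonoidAlgebra.sum_single a, SkewMonoidAlgebra.sum_def']
  exact Finset.sum_induction _ _ hadd h0 fun x _ => hT (w x) _ (ha (w x))

theorem Fk_mul {k l : ℤ} {m n : ℕ} {p q : ℂ[X]} (hp : p ∈ Fk k m) (hq : q ∈ Fk l n) :
    p * taylor (-(k : ℂ)) q ∈ Fk (k + l) (m + n) := by
  refine ⟨natDegree_mul_le.trans (add_le_add hp.1 (by rw [natDegree_taylor]; exact hq.1)),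
    fun t h h' => ?_⟩
  rw [eval_mul, taylor_eval]
  by_cases h2 : S (t - k)
  · rw [hp.2 t h2 h', zero_mul]
  · have := hq.2 (t - k) (by rwa [sub_sub]) h2
    push_cast at this
    rw [← sub_eq_add_neg, this, mul_zero]

theorem F_mul (m n : ℕ) (a b : D) (ha : a ∈ F m) (hb : b ∈ F n) : a * b ∈ F (m + n) := by
  refine F_ind (Q := fun a => a * b ∈ F (m + n)) (by simp) (fun a a' h h' => ?_)
    (fun k p hp => ?_) ha
  · rw [add_mul]; exact add_mem h h'
  refine F_ind (Q := fun b => T k p * b ∈ F (m + n)) (by simp) (fun a a' h h' => ?_)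
    (fun l q hq => ?_) hb
  · rw [mul_add]; exact add_mem h h'
  · rw [T_mul]; exact T_mem (Fk_mul hp hq)

/-- The forced roots in weight `k`. -/
noncomputable def Z (k : ℤ) : Finset ℤ := (Icc k 1).filter fun t => t - k ≠ 1 ∧ (t < 0 ∨ t = 1)

theorem mem_Z {k t : ℤ} : t ∈ Z k ↔ S (t - k) ∧ ¬ S t := by
  simp only [Z, S, mem_filter, mem_Icc]
  omega

theorem card_Z (k : ℤ) (m : ℕ) : (Z k).card ≤ m ↔ 0 ≤ k + m ∧ k + 2 * m ≠ 1 := by
  by_cases h : k ≤ -2
  · have : Z k = insert 1 ((Icc k (-1)).erase (k + 1)) := by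
      ext t; simp only [Z, mem_filter, mem_Icc, mem_insert, mem_erase]; omega
    rw [this, card_insert_of_notMem (by simp), card_erase_of_mem (by simp; omega), Int.card_Icc]
    omega
  by_cases h1 : k = -1
  · subst h1
    have : Z (-1) = {-1, 1} := by
      ext t; simp only [Z, mem_filter, mem_Icc, mem_insert, mem_singleton]; omega
    rw [this, card_pair (by decide)]
    omega
  by_cases h2 : k = 1
  · subst h2
    have : Z 1 = {1} := by
      ext t; simp only [Z, mem_filter, mem_Icc, mem_singleton]; omega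
    rw [this, card_singleton]
    omega
  have : Z k = ∅ := by
    ext t; simp only [Z, mem_filter, mem_Icc, notMem_empty, iff_false]; omega
  rw [this, card_empty]
  omega

theorem eq_zero_of_not {k : ℤ} {m : ℕ} {p : ℂ[X]} (hp : p ∈ Fk k m)
    (h : ¬ (0 ≤ k + m ∧ k + 2 * m ≠ 1)) : p = 0 := by
  rw [← card_Z, not_le] at h
  refine eq_zero_of_natDegree_lt_card_of_eval_eq_zero' p ((Z k).image Int.cast) ?_ ?_
  · intro z hz
    obtain ⟨t, ht, rfl⟩ := mem_image.1 hz
    exact hp.2 t (mem_Z.1 ht).1 (mem_Z.1 ht).2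
  · rw [card_image_of_injective _ Int.cast_injective]
    exact hp.1.trans_lt h

/-- A monic allowed coefficient. -/
noncomputable def gp (k : ℤ) (m : ℕ) : ℂ[X] :=
  (∏ t ∈ Z k, (X - C (t : ℂ))) * X ^ (m - (Z k).card)

theorem gp_spec {k : ℤ} {m : ℕ} (h : 0 ≤ k + m ∧ k + 2 * m ≠ 1) :
    gp k m ∈ Fk k m ∧ (gp k m).coeff m = 1 := by
  rw [← card_Z] at h
  have hm : (∏ t ∈ Z k, (X - C (t : ℂ))).Monic := monic_prod_of_monic _ _ fun t _ => monic_X_sub_C _
  have hm' : (gp k m).Monic := hm.mul (monic_X_pow _)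
  have hd : (gp k m).natDegree = m := by
    rw [gp, hm.natDegree_mul (monic_X_pow _), natDegree_prod_of_monic _ _
      fun t _ => monic_X_sub_C _]
    simp only [natDegree_X_sub_C, sum_const, smul_eq_mul, mul_one, natDegree_X_pow]
    omega
  refine ⟨⟨hd.le, fun t h1 h2 => ?_⟩, ?_⟩
  · rw [gp, eval_mul, eval_prod, prod_eq_zero (mem_Z.2 ⟨h1, h2⟩) (by simp), zero_mul]
  · have := hm'.coeff_natDegree
    rwa [hd] at this

/-- The exponent of the symbol. -/
noncomputable def ex (k : ℤ) (m : ℕ) : Fin 2 →₀ ℕ :=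
  Finsupp.single 0 m + Finsupp.single 1 (k + m).toNat

@[simp] theorem ex_zero (k : ℤ) (m : ℕ) : ex k m 0 = m := by simp [ex]
@[simp] theorem ex_one (k : ℤ) (m : ℕ) : ex k m 1 = (k + m).toNat := by simp [ex]

theorem fin2_ext {e e' : Fin 2 →₀ ℕ} (h0 : e 0 = e' 0) (h1 : e 1 = e' 1) : e = e' := by
  ext i; fin_cases i
  · exact h0
  · exact h1

/-- The symbol of order `m`. -/
noncomputable def σ' (m : ℕ) : D →ₗ[ℂ] P :=
  Finsupp.lsum ℂ (fun x => MvPolynomial.monomial (ex (w x) m) ∘ₗ lcoeff ℂ m) ∘ₗ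
    (SkewMonoidAlgebra.coeffLinearEquiv (S := ℂ)).toLinearMap

theorem σ'_T (m : ℕ) (k : ℤ) (p : ℂ[X]) :
    σ' m (T k p) = MvPolynomial.monomial (ex k m) (p.coeff m) := by
  change Finsupp.lsum ℂ (fun x => MvPolynomial.monomial (ex (w x) m) ∘ₗ lcoeff ℂ m)
    (Finsupp.single (g k) p) = _
  rw [Finsupp.lsum_single]
  rfl

theorem σ'_mem {m : ℕ} {a : D} (ha : a ∈ F m) : σ' m a ∈ Rr := by
  refine F_ind (Q := fun a => σ' m a ∈ Rr) (by simp) (fun a a' h h' => ?_) (fun k p hp => ?_) ha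
  · rw [map_add]; exact add_mem h h'
  · intro e he
    rw [σ'_T, MvPolynomial.coeff_monomial]
    split_ifs with h
    · subst h
      rw [eq_zero_of_not hp (by simp at he; omega), coeff_zero]
    · rfl

theorem σ'_succ (m : ℕ) (a : D) (ha : a ∈ F m) : σ' (m + 1) a = 0 := by
  refine F_ind (Q := fun a => σ' (m + 1) a = 0) (by simp) (fun a a' h h' => ?_)
    (fun k p hp => ?_) ha
  · rw [map_add, h, h', add_zero]
  · rw [σ'_T, coeff_eq_zero_of_natDegree_lt (Nat.lt_succ_of_le hp.1), map_zero]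

theorem coeff_taylor_top {p : ℂ[X]} {n : ℕ} (hp : p.natDegree ≤ n) (r : ℂ) (j : ℕ)
    (hj : n ≤ j + 1) : (taylor r p - p).coeff j = (j + 1) * r * p.coeff (j + 1) := by
  rw [coeff_sub, taylor_coeff, eq_X_add_C_of_natDegree_le_one
    ((natDegree_hasseDeriv_le p j).trans (by omega))]
  simp only [hasseDeriv_coeff, eval_add, eval_mul, eval_C, eval_X, zero_add, Nat.choose_self,
    add_comm 1 j, Nat.choose_succ_self_right]
  push_cast
  ring

theorem σ'_mul (m n : ℕ) (a b : D) (ha : a ∈ F m) (hb : b ∈ F n) :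
    σ' (m + n) (a * b) = σ' m a * σ' n b := by
  refine F_ind (Q := fun a => σ' (m + n) (a * b) = σ' m a * σ' n b) (by simp)
    (fun a a' h h' => ?_) (fun k p hp => ?_) ha
  · rw [add_mul, map_add, h, h', map_add, add_mul]
  refine F_ind (Q := fun b => σ' (m + n) (T k p * b) = σ' m (T k p) * σ' n b) (by simp)
    (fun a a' h h' => ?_) (fun l q hq => ?_) hb
  · rw [mul_add, map_add, h, h', map_add, mul_add]
  by_cases h1 : 0 ≤ k + m ∧ k + 2 * m ≠ 1
  swap
  · simp [eq_zero_of_not hp h1]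
  by_cases h2 : 0 ≤ l + n ∧ l + 2 * n ≠ 1
  swap
  · simp [eq_zero_of_not hq h2]
  have h3 : (taylor (-(k : ℂ)) q).coeff n = q.coeff n := by
    have := coeff_taylor_top hq.1 (-(k : ℂ)) n (by omega)
    rwa [coeff_eq_zero_of_natDegree_lt (Nat.lt_succ_of_le hq.1), mul_zero, coeff_sub,
      sub_eq_zero] at this
  rw [T_mul, σ'_T, σ'_T, σ'_T, MvPolynomial.monomial_mul,
    coeff_mul_add_eq_of_natDegree_le hp.1 (by rw [natDegree_taylor]; exact hq.1), h3]
  congr 2
  refine fin2_ext (by simp) ?_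
  simp only [ex_one, Finsupp.add_apply]
  push_cast
  omega

theorem coeff_σ' {m : ℕ} {a : D} (ha : a ∈ F m) (k : ℤ) (hk : 0 ≤ k + m) :
    MvPolynomial.coeff (ex k m) (σ' m a) = (a.coeff (g k)).coeff m := by
  refine F_ind (Q := fun a => MvPolynomial.coeff (ex k m) (σ' m a) = (a.coeff (g k)).coeff m)
    (by simp) (fun a a' h h' => ?_) (fun l p hp => ?_) ha
  · rw [map_add, MvPolynomial.coeff_add, h, h', SkewMonoidAlgebra.coeff_add, Finsupp.add_apply,
      coeff_add]
  by_cases h1 : 0 ≤ l + m ∧ l + 2 * m ≠ 1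
  swap
  · simp [eq_zero_of_not hp h1]
  rw [σ'_T, MvPolynomial.coeff_monomial, coeff_T]
  by_cases h : l = k
  · simp [h]
  · rw [if_neg h, if_neg, coeff_zero]
    intro h'
    have := DFunLike.congr_fun h' 1
    simp only [ex_one] at this
    omega

theorem top_zero {m : ℕ} {a : D} (ha : a ∈ F m) (h : σ' m a = 0) (k : ℤ) :
    (a.coeff (g k)).coeff m = 0 := by
  by_cases hk : 0 ≤ k + m
  · rw [← coeff_σ' ha k hk, h, MvPolynomial.coeff_zero]
  · rw [eq_zero_of_not (ha k) fun h => hk h.1, coeff_zero]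

theorem mul_shift {p q : ℂ[X]} {m n l : ℕ} (hp : p.natDegree ≤ m) (hq : q.natDegree ≤ n)
    (h : m + n = l + 1) (r : ℂ) :
    (p * (taylor r q - q)).coeff l = p.coeff m * (n * r * q.coeff n) := by
  rcases n with _ | n
  · rw [eq_C_of_natDegree_le_zero hq]; simp
  · have hd : (taylor r q - q).natDegree ≤ n := by
      rw [natDegree_le_iff_coeff_eq_zero]
      intro j hj
      rw [coeff_taylor_top hq r j (by omega), coeff_eq_zero_of_natDegree_lt (by omega), mul_zero]
    obtain rfl : l = m + n := by omega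
    rw [coeff_mul_add_eq_of_natDegree_le hp hd, coeff_taylor_top hq r n le_rfl]
    push_cast
    ring

theorem σ'_comm (m n l : ℕ) (a b : D) (ha : a ∈ F m) (hb : b ∈ F n) (hl : m + n = l + 1) :
    σ' l (a * b - b * a) = brP (σ' m a) (σ' n b) := by
  refine F_ind (Q := fun a => σ' l (a * b - b * a) = brP (σ' m a) (σ' n b)) (by simp [brP])
    (fun a a' h h' => ?_) (fun k p hp => ?_) ha
  · simp only [brP, map_add, map_sub, add_mul, mul_add] at h h' ⊢
    linear_combination h + h'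
  refine F_ind (Q := fun b => σ' l (T k p * b - b * T k p) = brP (σ' m (T k p)) (σ' n b))
    (by simp [brP]) (fun a a' h h' => ?_) (fun k' q hq => ?_) hb
  · simp only [brP, map_add, map_sub, add_mul, mul_add] at h h' ⊢
    linear_combination h + h'
  by_cases h1 : 0 ≤ k + m ∧ k + 2 * m ≠ 1
  swap
  · simp [eq_zero_of_not hp h1, brP]
  by_cases h2 : 0 ≤ k' + n ∧ k' + 2 * n ≠ 1
  swap
  · simp [eq_zero_of_not hq h2, brP]
  have h3 : p * taylor (-(k : ℂ)) q - q * taylor (-(k' : ℂ)) p =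
      p * (taylor (-(k : ℂ)) q - q) - q * (taylor (-(k' : ℂ)) p - p) := by ring
  rw [T_mul, T_mul, add_comm k' k, ← map_sub, σ'_T, σ'_T, σ'_T, h3, coeff_sub,
    mul_shift hp.1 hq.1 hl, mul_shift hq.1 hp.1 (by omega), brP]
  simp only [MvPolynomial.pderiv_monomial, MvPolynomial.monomial_mul, ex_zero, ex_one]
  obtain ⟨i, hi⟩ := Int.eq_ofNat_of_zero_le h1.1
  obtain ⟨j, hj⟩ := Int.eq_ofNat_of_zero_le h2.1
  have hi' : (k : ℂ) = i - m := by
    have : k = i - m := by omega
    rw [this]; push_cast; rfl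
  have hj' : (k' : ℂ) = j - n := by
    have : k' = j - n := by omega
    rw [this]; push_cast; rfl
  have e1 : MvPolynomial.monomial (ex k m - Finsupp.single 0 1 + (ex k' n - Finsupp.single 1 1))
      (p.coeff m * m * (q.coeff n * j)) =
      MvPolynomial.monomial (ex (k + k') l) (p.coeff m * m * (q.coeff n * j)) := by
    rcases Nat.eq_zero_or_pos m with h | h
    · simp [h]
    rcases Nat.eq_zero_or_pos j with h' | h'
    · simp [h']
    congr 2
    refine fin2_ext ?_ ?_
    · simp; omega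
    · simp; omega
  have e2 : MvPolynomial.monomial (ex k m - Finsupp.single 1 1 + (ex k' n - Finsupp.single 0 1))
      (p.coeff m * i * (q.coeff n * n)) =
      MvPolynomial.monomial (ex (k + k') l) (p.coeff m * i * (q.coeff n * n)) := by
    rcases Nat.eq_zero_or_pos n with h | h
    · simp [h]
    rcases Nat.eq_zero_or_pos i with h' | h'
    · simp [h']
    congr 2
    refine fin2_ext ?_ ?_
    · simp; omega
    · simp; omega
  rw [hi, hj, Int.toNat_natCast, Int.toNat_natCast, e1, e2, ← map_sub, hi', hj']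
  congr 1
  ring

end Pool.Agent.Lib.MP_b538eb_ag
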