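import Mathlib

open AlgebraicGeometry CategoryTheory

namespace Pool.Agent.Lib.MP_b538eb_ag

variable {R : Type} [CommRing R] [Algebra ℂ R]

/-- A Poisson bracket: bilinear, alternating, Jacobi identity, Leibniz rule. -/
def IsPoisson (br : R → R → R) : Prop :=
  (∀ a, IsLinearMap ℂ (br a)) ∧ (∀ b, IsLinearMap ℂ fun a => br a b) ∧
  (∀ a, br a a = 0) ∧
  (∀ a b c, br a (br b c) + br b (br c a) + br c (br a b) = 0) ∧
  ∀ a b c, br a (b * c) = br a b * c + b * br a c

/-- The affine plane with its standard symplectic structure is a symplectic resolution of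
`Spec R`: a proper, birational, Poisson morphism. -/
def ResolvedByPlane (br : R → R → R) : Prop :=
  ∃ φ : R →ₐ[ℂ] MvPolynomial (Fin 2) ℂ,
    IsProper (Spec.map (CommRingCat.ofHom φ.toRingHom)) ∧
    (∃ U : (Spec (CommRingCat.of R)).Opens, Dense (U : Set (Spec (CommRingCat.of R))) ∧
      Dense ((Spec.map (CommRingCat.ofHom φ.toRingHom) ⁻¹ᵁ U :
        (Spec (CommRingCat.of (MvPolynomial (Fin 2) ℂ))).Opens) :
          Set (Spec (CommRingCat.of (MvPolynomial (Fin 2) ℂ)))) ∧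
      IsIso (Spec.map (CommRingCat.ofHom φ.toRingHom) ∣_ U)) ∧
    ∀ f g, φ (br f g) =
      MvPolynomial.pderiv 0 (φ f) * MvPolynomial.pderiv 1 (φ g) -
        MvPolynomial.pderiv 1 (φ f) * MvPolynomial.pderiv 0 (φ g)

/-- `A` with the reduction map `π` is a deformation quantization of `(R, br)`. -/
def IsQuantization (br : R → R → R) {A : Type} [Ring A] [Algebra (PowerSeries ℂ) A]
    (π : A →+* R) : Prop :=
  IsAdicComplete (Ideal.span {(PowerSeries.X : PowerSeries ℂ)}) A ∧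
  Nonempty (A ≃ₗ[PowerSeries ℂ] PowerSeries R) ∧
  Function.Surjective π ∧
  (∀ c : ℂ, π (algebraMap (PowerSeries ℂ) A (PowerSeries.C c)) = algebraMap ℂ R c) ∧
  (∀ a, π a = 0 ↔ ∃ b, a = (PowerSeries.X : PowerSeries ℂ) • b) ∧
  ∀ a b, ∃ c, a * b - b * a = (PowerSeries.X : PowerSeries ℂ) • c ∧ π c = br (π a) (π b)

end Pool.Agent.Lib.MP_b538eb_ag
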