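import Pool.Agent.Lib.MP_b538eb_ag.Cusp

open Polynomial Finset

namespace Pool.Agent.Lib.MP_b538eb_ag

open Classical in
/-- Quantization of the part of order `d`. -/
noncomputable def q' (d : ℕ) : P →ₗ[ℂ] D :=
  (MvPolynomial.basisMonomials (Fin 2) ℂ).constr ℂ fun e =>
    if e 0 = d ∧ e 0 + e 1 ≠ 1 then T ((e 1 : ℤ) - d) (gp ((e 1 : ℤ) - d) d) else 0

theorem q'_monomial (d : ℕ) (e : Fin 2 →₀ ℕ) (c : ℂ) : q' d (MvPolynomial.monomial e c) =
    if e 0 = d ∧ e 0 + e 1 ≠ 1 then c • T ((e 1 : ℤ) - d) (gp ((e 1 : ℤ) - d) d) else 0 := by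
  have : MvPolynomial.monomial e c = c • MvPolynomial.basisMonomials (Fin 2) ℂ e := by
    simp [MvPolynomial.smul_monomial]
  rw [this, map_smul, q', Module.Basis.constr_basis]
  split_ifs <;> simp

theorem q'_mem (d : ℕ) (f : P) : q' d f ∈ F d := by
  induction f using MvPolynomial.induction_on' with
  | add p q hp hq => rw [map_add]; exact add_mem hp hq
  | monomial e c =>
    rw [q'_monomial]
    split_ifs with h
    · exact Submodule.smul_mem _ _ (T_mem (gp_spec (by omega)).1)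
    · exact zero_mem _

theorem σ'_q' (d : ℕ) (e : Fin 2 →₀ ℕ) (c : ℂ) : σ' d (q' d (MvPolynomial.monomial e c)) =
    if e 0 = d ∧ e 0 + e 1 ≠ 1 then MvPolynomial.monomial e c else 0 := by
  rw [q'_monomial]
  split_ifs with h
  · rw [map_smul, σ'_T, (gp_spec (by omega)).2, MvPolynomial.smul_monomial, smul_eq_mul, mul_one]
    congr 2
    refine fin2_ext (by simp [h.1]) (by simp)
  · simp

theorem q'_sum {f : P} (hf : f ∈ Rr) :
    ∃ N, (∀ d, N ≤ d → q' d f = 0) ∧ ∑ d ∈ range N, σ' d (q' d f) = f := by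
  refine ⟨(f.support.sup fun e => e 0) + 1, fun d hd => ?_, ?_⟩
  · rw [f.as_sum, map_sum]
    refine sum_eq_zero fun e he => ?_
    have : e 0 ≤ f.support.sup fun e => e 0 := le_sup (f := fun e : Fin 2 →₀ ℕ => e 0) he
    rw [q'_monomial, if_neg (by omega)]
  · generalize hN : (f.support.sup fun e => e 0) + 1 = N
    conv_lhs => rw [f.as_sum]
    conv_rhs => rw [f.as_sum]
    simp only [map_sum]
    rw [sum_comm]
    refine sum_congr rfl fun e he => ?_
    have h1 : e 0 ≤ f.support.sup fun e => e 0 := le_sup (f := fun e : Fin 2 →₀ ℕ => e 0) he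
    have h2 : e 0 + e 1 ≠ 1 := fun h => MvPolynomial.mem_support_iff.1 he (hf e h)
    simp only [σ'_q', h2, ne_eq, not_false_eq_true, and_true]
    rw [sum_ite_eq, if_pos (mem_range.2 (by omega))]

theorem σ'_indep (m n : ℕ) (a : D) (ha : a ∈ F n) :
    σ' m (q' m (σ' n a)) = if m = n then σ' n a else 0 := by
  refine F_ind (Q := fun a => σ' m (q' m (σ' n a)) = if m = n then σ' n a else 0) (by simp)
    (fun a a' h h' => ?_) (fun k p hp => ?_) ha
  · simp only [map_add, h, h']
    split_ifs <;> simp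
  by_cases h1 : 0 ≤ k + n ∧ k + 2 * n ≠ 1
  swap
  · simp [eq_zero_of_not hp h1]
  rw [σ'_T, σ'_q']
  refine if_congr ?_ rfl rfl
  simp only [ex_zero, ex_one]
  omega

theorem exists_proj : ∃ ρ : P →ₗ[ℂ] Rr, ∀ f ∈ Rr, (ρ f : P) = f := by
  obtain ⟨ρ, hρ⟩ := Rr.val.toLinearMap.exists_leftInverse_of_injective
    (LinearMap.ker_eq_bot.2 Subtype.val_injective)
  exact ⟨ρ, fun f hf => congrArg Subtype.val (LinearMap.congr_fun hρ ⟨f, hf⟩)⟩

/-- The symbol with values in the subalgebra. -/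
noncomputable def σ (m : ℕ) : D →ₗ[ℂ] Rr := exists_proj.choose ∘ₗ σ' m

theorem coe_σ {m : ℕ} {a : D} (ha : a ∈ F m) : (σ m a : P) = σ' m a :=
  exists_proj.choose_spec _ (σ'_mem ha)

theorem F_mono : Monotone F := fun _ _ h _ ha k => ⟨(ha k).1.trans h, (ha k).2⟩

theorem one_eq : (1 : D) = T 0 1 := rfl

theorem one_mem : (1 : D) ∈ F 0 := T_mem (k := 0) ⟨by simp, fun t h h' => absurd (by simpa using h) h'⟩

theorem ker_succ (m : ℕ) (a : D) (ha : a ∈ F (m + 1)) (h : σ' (m + 1) a = 0) : a ∈ F m := by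
  refine fun k => ⟨?_, (ha k).2⟩
  rw [natDegree_le_iff_coeff_eq_zero]
  intro j hj
  rcases (Nat.succ_le_of_lt hj).eq_or_lt with h1 | h1
  · rw [← h1]; exact top_zero ha h k
  · exact coeff_eq_zero_of_natDegree_lt ((ha k).1.trans_lt h1)

theorem pderiv_σ' {a : D} (ha : a ∈ F 0) : MvPolynomial.pderiv 0 (σ' 0 a) = 0 := by
  refine F_ind (Q := fun a => MvPolynomial.pderiv 0 (σ' 0 a) = 0) (by simp)
    (fun a a' h h' => ?_) (fun k p _ => ?_) ha
  · rw [map_add, map_add, h, h', add_zero]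
  · simp [σ'_T]

/-- The filtered algebra of differential operators on the cusp. -/
noncomputable def data : Data D brR where
  F := F
  σ := σ
  q d := q' d ∘ₗ Rr.val.toLinearMap
  mono := F_mono
  one_mem := one_mem
  mul_mem := F_mul
  σ_one := Subtype.ext (by
    rw [coe_σ one_mem, one_eq, σ'_T]
    have : ex 0 0 = 0 := fin2_ext (by simp) (by simp)
    simp [this])
  σ_mul m n a b ha hb := Subtype.ext (by
    rw [MulMemClass.coe_mul, coe_σ ha, coe_σ hb, coe_σ (F_mul _ _ _ _ ha hb), σ'_mul _ _ _ _ ha hb])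
  σ_succ m a ha := Subtype.ext (by
    rw [coe_σ (F_mono (Nat.le_succ m) ha), σ'_succ m a ha]; rfl)
  ker_zero a ha h := by
    have h1 : σ' 0 a = 0 := by rw [← coe_σ ha, h]; rfl
    ext x : 1
    have := top_zero ha h1 (w x)
    rw [g_w] at this
    have h2 := eq_C_of_natDegree_le_zero (ha (w x)).1
    rw [g_w, this] at h2
    simpa using h2
  ker_succ m a ha h := ker_succ m a ha (by rw [← coe_σ ha, h]; rfl)
  br_zero a ha b hb := Subtype.ext (by
    rw [coe_brR, coe_σ ha, coe_σ hb, brP, pderiv_σ' ha, pderiv_σ' hb]; simp)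
  comm m n l a b ha hb h := Subtype.ext (by
    have h1 := F_mul _ _ _ _ ha hb
    have h2 := F_mul _ _ _ _ hb ha
    have h3 := σ'_mul _ _ _ _ ha hb
    have h4 := σ'_mul _ _ _ _ hb ha
    rw [add_comm n m] at h2 h4
    rw [h] at h1 h2 h3 h4
    rw [coe_brR, coe_σ ha, coe_σ hb, coe_σ (ker_succ l _ (sub_mem h1 h2)
      (by rw [map_sub, h3, h4, mul_comm, sub_self])), σ'_comm _ _ _ _ _ ha hb h])
  q_mem d r := q'_mem d r
  q_sum r := by
    obtain ⟨N, h1, h2⟩ := q'_sum r.2
    refine ⟨N, h1, Subtype.ext ?_⟩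
    rw [AddSubmonoidClass.coe_finsetSum, ← h2]
    exact sum_congr rfl fun d _ => coe_σ (q'_mem d r)
  indep m n a ha := Subtype.ext (by
    have : ((q' m ∘ₗ Rr.val.toLinearMap) (σ n a)) = q' m (σ' n a) := by
      rw [← coe_σ ha]; rfl
    rw [this, coe_σ (q'_mem _ _), σ'_indep _ _ _ ha]
    split_ifs
    · exact (coe_σ ha).symm
    · rfl)

theorem antider (m : ℕ) (p : ℂ[X]) (hp : p.natDegree ≤ m) :
    ∃ Q : ℂ[X], Q.natDegree ≤ m + 1 ∧ p = taylor (-2) Q - Q := by
  induction m generalizing p with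
  | zero =>
    refine ⟨C (-p.coeff 0 / 2) * X, (natDegree_C_mul_le _ _).trans (by simp), ?_⟩
    rw [eq_C_of_natDegree_le_zero hp]
    simp only [taylor_mul, taylor_C, taylor_X, coeff_C_zero, ← mul_sub, add_sub_cancel_left,
      ← C_mul]
    congr 1; ring
  | succ m ih =>
    set c : ℂ := -p.coeff (m + 1) / (2 * (m + 2)) with hc
    have h1 : (monomial (m + 2) c).natDegree ≤ m + 2 := natDegree_monomial_le _
    have h2 : (p - (taylor (-2) (monomial (m + 2) c) - monomial (m + 2) c)).natDegree ≤ m := by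
      rw [natDegree_le_iff_coeff_eq_zero]
      intro j hj
      rw [coeff_sub, coeff_taylor_top h1 _ j (by omega), coeff_monomial]
      split_ifs with h
      · obtain rfl : j = m + 1 := by omega
        have : ((m : ℂ) + 2) ≠ 0 := by exact_mod_cast (by omega : m + 2 ≠ 0)
        rw [hc]; push_cast; field_simp; ring
      · rw [coeff_eq_zero_of_natDegree_lt (by omega)]; simp
    obtain ⟨Q, hQ, h⟩ := ih _ h2
    refine ⟨Q + monomial (m + 2) c, natDegree_add_le_of_degree_le (by omega) h1, ?_⟩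
    rw [map_add]
    linear_combination h

/-- The three left entries of the commutators. -/
noncomputable def u : Fin 3 → D := ![T 0 X, T 2 1, T 3 1]

theorem u_mem (i : Fin 3) : u i ∈ F 3 := by
  fin_cases i
  · exact T_mem ⟨by simp, fun t h h' => absurd (by simpa using h) h'⟩
  · exact T_mem ⟨by simp, fun t h h' => by simp only [S] at h h'; omega⟩
  · exact T_mem ⟨by simp, fun t h h' => by simp only [S] at h h'; omega⟩

theorem comm_T (k : ℤ) (Q : ℂ[X]) :
    T k 1 * T (-k) Q - T (-k) Q * T k 1 = T 0 (taylor (-(k : ℂ)) Q - Q) := by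
  rw [T_mul, T_mul, add_neg_cancel, neg_add_cancel, ← map_sub]
  simp

theorem decomp (m : ℕ) (d : D) (hd : d ∈ F m) : ∃ b : Fin 3 → D, (∀ i, b i ∈ F (m + 3)) ∧
    d = ∑ i, (u i * b i - b i * u i) := by
  refine F_ind (Q := fun d => ∃ b : Fin 3 → D, (∀ i, b i ∈ F (m + 3)) ∧
    d = ∑ i, (u i * b i - b i * u i)) ⟨0, fun i => zero_mem _, by simp⟩ ?_ (fun k p hp => ?_) hd
  · rintro a a' ⟨b, hb, rfl⟩ ⟨b', hb', rfl⟩
    refine ⟨b + b', fun i => add_mem (hb i) (hb' i), ?_⟩
    rw [← sum_add_distrib]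
    refine sum_congr rfl fun i _ => ?_
    simp only [Pi.add_apply, mul_add, add_mul]
    abel
  by_cases hk : k = 0
  · subst hk
    obtain ⟨Q, hQ, h⟩ := antider m p hp.1
    set a := Q.eval (-2) with ha
    set c := (Q.eval 1 - a) / 3 with hc
    let Q₂ : ℂ[X] := Q - C a - C c * (X + 2) + C c * ((2 * X + 1) * (X + 2) * (X - 1))
    let Q₃ : ℂ[X] := C (-4 * c / 3) * ((X + 3) * (X + 1) * (X - 1))
    have h2 : T (-2) Q₂ ∈ F (m + 3) := by
      refine T_mem ⟨?_, fun t h h' => ?_⟩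
      · have : (-C a - C c * (X + 2) + C c * ((2 * X + 1) * (X + 2) * (X - 1)) :
            ℂ[X]).natDegree ≤ 3 := by compute_degree
        have e : Q₂ = Q + (-C a - C c * (X + 2) + C c * ((2 * X + 1) * (X + 2) * (X - 1))) := by
          simp only [Q₂]; ring
        rw [e]
        exact natDegree_add_le_of_degree_le (by omega) (by omega)
      · have : t = -2 ∨ t = 1 := by simp only [S] at h h'; omega
        rcases this with rfl | rfl
        · simp [Q₂, ha]
        · simp [Q₂, hc]; ring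
    have h3 : T (-3) Q₃ ∈ F (m + 3) := by
      refine T_mem ⟨?_, fun t h h' => ?_⟩
      · have : Q₃.natDegree ≤ 3 := by simp only [Q₃]; compute_degree
        omega
      · have : t = -3 ∨ t = -1 ∨ t = 1 := by simp only [S] at h h'; omega
        rcases this with rfl | rfl | rfl <;> simp [Q₃]
    refine ⟨![0, T (-2) Q₂, T (-3) Q₃], fun i => ?_, ?_⟩
    · fin_cases i
      · exact zero_mem _
      · exact h2
      · exact h3
    · rw [Fin.sum_univ_three]
      change _ = (T 0 X * 0 - 0 * T 0 X) + (T 2 1 * T (-2) Q₂ - T (-2) Q₂ * T 2 1) +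
        (T 3 1 * T (-3) Q₃ - T (-3) Q₃ * T 3 1)
      rw [comm_T, comm_T, mul_zero, zero_mul, sub_zero, zero_add, ← map_add, h]
      congr 1
      refine Polynomial.funext fun z => ?_
      simp [Q₂, Q₃, taylor_eval]
      ring
  · refine ⟨![(k : ℂ)⁻¹ • T k p, 0, 0], fun i => ?_, ?_⟩
    · fin_cases i
      · exact Submodule.smul_mem _ _ (F_mono (by omega) (T_mem hp))
      · exact zero_mem _
      · exact zero_mem _
    · rw [Fin.sum_univ_three]
      change _ = (T 0 X * ((k : ℂ)⁻¹ • T k p) - ((k : ℂ)⁻¹ • T k p) * T 0 X) +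
        (T 2 1 * 0 - 0 * T 2 1) + (T 3 1 * 0 - 0 * T 3 1)
      have hk' : (k : ℂ) ≠ 0 := by exact_mod_cast hk
      rw [mul_smul_comm, smul_mul_assoc, T_mul, T_mul, zero_add, add_zero, ← smul_sub, ← map_sub,
        ← map_smul]
      simp only [mul_zero, zero_mul, sub_zero, add_zero]
      congr 1
      refine Polynomial.funext fun z => ?_
      simp
      field_simp
      ring

theorem hh_top : Submodule.span (LaurentSeries ℂ)
    {x : TensorProduct (PowerSeries ℂ) (LaurentSeries ℂ) data.A | ∃ a b, x = a * b - b * a} = ⊤ :=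
  span_comm_top (3 + 3) (data.X_pow_comm 3 u u_mem decomp)

end Pool.Agent.Lib.MP_b538eb_ag
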