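import Pool.Agent.Lib.MP_b538eb_ag.Defs

open MvPolynomial Finset AlgebraicGeometry CategoryTheory

namespace Pool.Agent.Lib.MP_b538eb_ag

/-- Polynomials in two variables. -/
abbrev P : Type := MvPolynomial (Fin 2) ℂ

/-- Polynomials without linear terms. -/
noncomputable def Rr : Subalgebra ℂ P where
  carrier := {f | ∀ e : Fin 2 →₀ ℕ, e 0 + e 1 = 1 → coeff e f = 0}
  mul_mem' := by
    intro f g hf hg e he
    rw [coeff_mul]
    refine sum_eq_zero fun x hx => ?_
    have hx := mem_antidiagonal.1 hx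
    have h0 := DFunLike.congr_fun hx 0
    have h1 := DFunLike.congr_fun hx 1
    simp only [Finsupp.add_apply] at h0 h1
    by_cases h : x.1 0 + x.1 1 = 1
    · rw [hf _ h, zero_mul]
    · rw [hg _ (by omega), mul_zero]
  add_mem' := by
    intro f g hf hg e he
    rw [coeff_add, hf e he, hg e he, add_zero]
  algebraMap_mem' := by
    intro c e he
    rw [algebraMap_eq, coeff_C, if_neg]
    rintro rfl
    simp at he

theorem mem_Rr {f : P} : f ∈ Rr ↔ ∀ e : Fin 2 →₀ ℕ, e 0 + e 1 = 1 → coeff e f = 0 := Iff.rfl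

/-- The standard bracket. -/
noncomputable def brP (f g : P) : P := pderiv 0 f * pderiv 1 g - pderiv 1 f * pderiv 0 g

theorem coeff_zero_pderiv {f : P} (hf : f ∈ Rr) (i : Fin 2) : coeff 0 (pderiv i f) = 0 := by
  rw [coeff_pderiv, hf, zero_mul]
  fin_cases i <;> simp

theorem low_mul {f g : P} (hf : coeff 0 f = 0) (hg : coeff 0 g = 0) (e : Fin 2 →₀ ℕ)
    (he : e 0 + e 1 ≤ 1) : coeff e (f * g) = 0 := by
  rw [coeff_mul]
  refine sum_eq_zero fun x hx => ?_
  have hx := mem_antidiagonal.1 hx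
  have h0 := DFunLike.congr_fun hx 0
  have h1 := DFunLike.congr_fun hx 1
  simp only [Finsupp.add_apply] at h0 h1
  by_cases h : x.1 0 + x.1 1 = 0
  · have : x.1 = 0 := by
      ext i; fin_cases i
      · change x.1 0 = 0; omega
      · change x.1 1 = 0; omega
    rw [this, hf, zero_mul]
  · have : x.2 = 0 := by
      ext i; fin_cases i
      · change x.2 0 = 0; omega
      · change x.2 1 = 0; omega
    rw [this, hg, mul_zero]

theorem low_brP {f g : P} (hf : f ∈ Rr) (hg : g ∈ Rr) (e : Fin 2 →₀ ℕ) (he : e 0 + e 1 ≤ 1) :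
    coeff e (brP f g) = 0 := by
  rw [brP, coeff_sub, low_mul (coeff_zero_pderiv hf _) (coeff_zero_pderiv hg _) e he,
    low_mul (coeff_zero_pderiv hf _) (coeff_zero_pderiv hg _) e he, sub_self]

/-- The bracket on the subalgebra. -/
noncomputable def brR : Rr →ₗ[ℂ] Rr →ₗ[ℂ] Rr :=
  LinearMap.mk₂ ℂ (fun f g => ⟨brP f g, fun e he => low_brP f.2 g.2 e he.le⟩)
    (fun f f' g => Subtype.ext (by simp [brP]; ring))
    (fun c f g => Subtype.ext (by simp [brP, smul_sub]))
    (fun f g g' => Subtype.ext (by simp [brP]; ring))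
    (fun c f g => Subtype.ext (by simp [brP, smul_sub]))

theorem coe_brR (f g : Rr) : (brR f g : P) = brP f g := rfl

theorem pderiv_swap (f : P) : pderiv 0 (pderiv 1 f) = pderiv 1 (pderiv 0 f) := by
  ext e
  simp only [coeff_pderiv, add_assoc, add_comm (Finsupp.single (0 : Fin 2) 1)]
  simp
  ring

theorem isPoisson : IsPoisson (fun a b => brR a b) := by
  refine ⟨fun a => (brR a).isLinear, fun b => (brR.flip b).isLinear, fun a => Subtype.ext ?_,
    fun a b c => Subtype.ext ?_, fun a b c => Subtype.ext ?_⟩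
  · simp [coe_brR, brP, mul_comm]
  · simp only [coe_brR, brP, AddMemClass.coe_add, ZeroMemClass.coe_zero, map_sub, pderiv_mul,
      pderiv_swap]
    ring
  · simp only [coe_brR, brP, AddMemClass.coe_add, MulMemClass.coe_mul, pderiv_mul]
    ring

theorem finite_P : Module.Finite Rr P := by
  classical
  refine ⟨⟨{1, X 0, X 1}, ?_⟩⟩
  rw [eq_top_iff]
  rintro f -
  have h : f - coeff (Finsupp.single 0 1) f • X 0 - coeff (Finsupp.single 1 1) f • X 1 ∈ Rr := by
    intro e he
    have : e = Finsupp.single 0 1 ∨ e = Finsupp.single 1 1 := by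
      by_cases h : e 0 = 1
      · left; ext i; fin_cases i
        · simpa using h
        · simp; omega
      · right; ext i; fin_cases i
        · simp; omega
        · simp; omega
    rcases this with rfl | rfl <;> simp [coeff_X, Finsupp.single_eq_single_iff]
  have h2 : f = (⟨_, h⟩ : Rr) • (1 : P) + algebraMap ℂ Rr (coeff (Finsupp.single 0 1) f) • X 0 +
      algebraMap ℂ Rr (coeff (Finsupp.single 1 1) f) • X 1 := by
    simp [Subalgebra.smul_def]
    abel
  rw [h2]
  refine add_mem (add_mem ?_ ?_) ?_ <;>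
    exact Submodule.smul_mem _ _ (Submodule.subset_span (by simp))

theorem finiteType_R : Algebra.FiniteType ℂ Rr :=
  ⟨fg_of_fg_of_fg ℂ Rr P Algebra.FiniteType.out finite_P.1 Subtype.val_injective⟩

theorem sq_mul_mem (f : P) : X 0 ^ 2 * f ∈ Rr := by
  intro e he
  rw [sq, mul_assoc]
  refine low_mul (by simp) ?_ e he.le
  rw [← constantCoeff_eq]; simp

theorem resolved : ResolvedByPlane (fun a b => brR a b) := by
  refine ⟨Rr.val, ?_, ?_, fun f g => rfl⟩
  · have : IsFinite (Spec.map (CommRingCat.ofHom Rr.val.toRingHom)) :=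
      (IsFinite.SpecMap_iff _).2 finite_P
    infer_instance
  · let r : Rr := ⟨X 0 ^ 2, by simpa using sq_mul_mem 1⟩
    have hr : (r : P) ≠ 0 := pow_ne_zero _ (X_ne_zero _)
    have hr' : r ≠ 0 := fun h => hr (by rw [h]; rfl)
    refine ⟨PrimeSpectrum.basicOpen r, ?_, ?_, ?_⟩
    · refine (PrimeSpectrum.basicOpen r).isOpen.dense ⟨⟨⊥, Ideal.isPrime_bot⟩, ?_⟩
      simpa using hr'
    · refine IsOpen.dense (TopologicalSpace.Opens.isOpen _) ⟨⟨⊥, Ideal.isPrime_bot⟩, ?_⟩
      change Rr.val.toRingHom r ∉ (⊥ : Ideal P)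
      simpa using hr
    · have e := SpecMapRestrictBasicOpenIso (CommRingCat.ofHom Rr.val.toRingHom) r
      refine (MorphismProperty.arrow_mk_iso_iff (MorphismProperty.isomorphisms _) e).2 ?_
      change IsIso _
      rw [isIso_SpecMap_iff]
      refine ⟨Localization.awayMap_injective_iff.2 fun a ha => ⟨0, ?_⟩,
        Localization.awayMap_surjective_iff.2 fun a => ⟨⟨_, sq_mul_mem a⟩, 1, ?_⟩⟩
      · rw [pow_zero, one_mul]; exact Subtype.ext ha
      · rw [pow_one]; rfl

theorem hp_ne_top : Submodule.span ℂ {x : Rr | ∃ f g, x = brR f g} ≠ ⊤ := by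
  intro h
  have h1 : (1 : Rr) ∈ Submodule.span ℂ {x : Rr | ∃ f g, x = brR f g} := h ▸ Submodule.mem_top
  have : ∀ x ∈ Submodule.span ℂ {x : Rr | ∃ f g, x = brR f g}, coeff 0 (x : P) = 0 := by
    intro x hx
    induction hx using Submodule.span_induction with
    | mem x hx => obtain ⟨f, g, rfl⟩ := hx; exact low_brP f.2 g.2 0 (by simp)
    | zero => simp
    | add x y _ _ hx hy => rw [AddMemClass.coe_add, coeff_add, hx, hy, add_zero]
    | smul c x _ hx => rw [SetLike.val_smul, coeff_smul, hx, smul_zero]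
  simpa using this 1 h1

end Pool.Agent.Lib.MP_b538eb_ag
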