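import Pool.Agent.Lib.MP_b538eb_ag.Defs

open PowerSeries Finset

namespace Pool.Agent.Lib.MP_b538eb_ag

variable {R : Type} [CommRing R] [Algebra ℂ R]

/-- A filtered algebra with symbol maps. -/
structure Data (D : Type) [Ring D] [Algebra ℂ D] (br : R →ₗ[ℂ] R →ₗ[ℂ] R) where
  F : ℕ → Submodule ℂ D
  σ : ℕ → D →ₗ[ℂ] R
  q : ℕ → R →ₗ[ℂ] D
  mono : Monotone F
  one_mem : 1 ∈ F 0
  mul_mem : ∀ m n a b, a ∈ F m → b ∈ F n → a * b ∈ F (m + n)
  σ_one : σ 0 1 = 1
  σ_mul : ∀ m n a b, a ∈ F m → b ∈ F n → σ (m + n) (a * b) = σ m a * σ n b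
  σ_succ : ∀ m a, a ∈ F m → σ (m + 1) a = 0
  ker_zero : ∀ a ∈ F 0, σ 0 a = 0 → a = 0
  ker_succ : ∀ m, ∀ a ∈ F (m + 1), σ (m + 1) a = 0 → a ∈ F m
  br_zero : ∀ a ∈ F 0, ∀ b ∈ F 0, br (σ 0 a) (σ 0 b) = 0
  comm : ∀ m n l a b, a ∈ F m → b ∈ F n → m + n = l + 1 →
    σ l (a * b - b * a) = br (σ m a) (σ n b)
  q_mem : ∀ d r, q d r ∈ F d
  q_sum : ∀ r, ∃ N, (∀ d, N ≤ d → q d r = 0) ∧ ∑ d ∈ range N, σ d (q d r) = r
  indep : ∀ m n a, a ∈ F n → σ m (q m (σ n a)) = if m = n then σ n a else 0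

variable {D : Type} [Ring D] [Algebra ℂ D] {br : R →ₗ[ℂ] R →ₗ[ℂ] R}

namespace Data

variable (H : Data D br)

/-- The completed Rees algebra. -/
def A : Subring (PowerSeries D) where
  carrier := {f | (∀ m, coeff m f ∈ H.F m) ∧ ∀ j, ∃ M, ∀ m, M ≤ m → coeff (m + j) f ∈ H.F m}
  mul_mem' := by
    rintro f g ⟨hf, hf'⟩ ⟨hg, hg'⟩
    refine ⟨fun m => ?_, fun j => ?_⟩
    · rw [coeff_mul]
      refine Submodule.sum_mem _ fun x hx => ?_
      rw [← mem_antidiagonal.1 hx]
      exact H.mul_mem _ _ _ _ (hf _) (hg _)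
    · obtain ⟨M, hM⟩ := hf' j
      obtain ⟨M', hM'⟩ := hg' j
      refine ⟨M + M' + j, fun m hm => ?_⟩
      rw [coeff_mul]
      refine Submodule.sum_mem _ fun x hx => ?_
      have hx := mem_antidiagonal.1 hx
      by_cases h : M + j ≤ x.1
      · have h1 : x.1 = (x.1 - j) + j := by omega
        have h2 : m = (x.1 - j) + x.2 := by omega
        rw [h2]
        refine H.mul_mem _ _ _ _ ?_ (hg _)
        have := hM (x.1 - j) (by omega)
        rwa [← h1] at this
      · have h1 : x.2 = (x.2 - j) + j := by omega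
        have h2 : m = x.1 + (x.2 - j) := by omega
        rw [h2]
        refine H.mul_mem _ _ _ _ (hf _) ?_
        have := hM' (x.2 - j) (by omega)
        rwa [← h1] at this
  one_mem' := by
    refine ⟨fun m => ?_, fun j => ⟨1, fun m hm => ?_⟩⟩
    · rw [coeff_one]
      split_ifs with h
      · subst h; exact H.one_mem
      · exact zero_mem _
    · rw [coeff_one, if_neg (by omega)]
      exact zero_mem _
  add_mem' := by
    rintro f g ⟨hf, hf'⟩ ⟨hg, hg'⟩
    refine ⟨fun m => ?_, fun j => ?_⟩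
    · rw [map_add]; exact add_mem (hf _) (hg _)
    · obtain ⟨M, hM⟩ := hf' j
      obtain ⟨M', hM'⟩ := hg' j
      refine ⟨M + M', fun m hm => ?_⟩
      rw [map_add]; exact add_mem (hM _ (by omega)) (hM' _ (by omega))
  zero_mem' := ⟨fun m => by simp, fun j => ⟨0, fun m _ => by simp⟩⟩
  neg_mem' := by
    rintro f ⟨hf, hf'⟩
    refine ⟨fun m => ?_, fun j => ?_⟩
    · rw [map_neg]; exact neg_mem (hf _)
    · obtain ⟨M, hM⟩ := hf' j
      exact ⟨M, fun m hm => by rw [map_neg]; exact neg_mem (hM _ hm)⟩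

theorem mem_A {f : PowerSeries D} : f ∈ H.A ↔
    (∀ m, coeff m f ∈ H.F m) ∧ ∀ j, ∃ M, ∀ m, M ≤ m → coeff (m + j) f ∈ H.F m := Iff.rfl

theorem alg_mem (c : ℂ) (m : ℕ) : algebraMap ℂ D c ∈ H.F m := by
  rw [Algebra.algebraMap_eq_smul_one]
  exact H.mono (Nat.zero_le m) (Submodule.smul_mem _ _ H.one_mem)

/-- The structure map. -/
noncomputable def ι : PowerSeries ℂ →+* H.A :=
  (PowerSeries.map (algebraMap ℂ D)).codRestrict H.A fun c =>
    ⟨fun m => by rw [coeff_map]; exact H.alg_mem _ _,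
      fun j => ⟨0, fun m _ => by rw [coeff_map]; exact H.alg_mem _ _⟩⟩

theorem coe_ι (c : PowerSeries ℂ) : (H.ι c : PowerSeries D) = PowerSeries.map (algebraMap ℂ D) c :=
  rfl

theorem map_comm (c : PowerSeries ℂ) (f : PowerSeries D) :
    PowerSeries.map (algebraMap ℂ D) c * f = f * PowerSeries.map (algebraMap ℂ D) c := by
  ext n
  rw [coeff_mul, coeff_mul, ← Finset.Nat.sum_antidiagonal_swap]
  refine sum_congr rfl fun x _ => ?_
  simp [Algebra.commutes]

noncomputable instance : Algebra (PowerSeries ℂ) H.A :=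
  H.ι.toAlgebra' fun c f => Subtype.ext (map_comm c (f : PowerSeries D))

theorem coe_smul (c : PowerSeries ℂ) (f : H.A) :
    ((c • f : H.A) : PowerSeries D) = PowerSeries.map (algebraMap ℂ D) c * (f : PowerSeries D) := rfl

theorem coe_X_smul (f : H.A) :
    (((X : PowerSeries ℂ) • f : H.A) : PowerSeries D) = X * (f : PowerSeries D) := by
  rw [coe_smul, map_X]

theorem σ_fin (f : H.A) : ∃ N, ∀ m, N ≤ m → H.σ m (coeff m (f : PowerSeries D)) = 0 := by
  obtain ⟨M, hM⟩ := f.2.2 1
  refine ⟨M + 1, fun m hm => ?_⟩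
  obtain ⟨m, rfl⟩ : ∃ k, m = k + 1 := ⟨m - 1, by omega⟩
  exact H.σ_succ _ _ (hM _ (by omega))

theorem σ_finite (f : H.A) :
    (Function.support fun m => H.σ m (coeff m (f : PowerSeries D))).Finite := by
  obtain ⟨N, hN⟩ := H.σ_fin f
  refine (Set.finite_lt_nat N).subset fun m hm => ?_
  by_contra h
  exact hm (hN m (by simpa using h))

/-- The total symbol as a polynomial. -/
noncomputable def sp₀ (f : H.A) : Polynomial R :=
  ⟨AddMonoidAlgebra.ofCoeff (Finsupp.ofSupportFinite _ (H.σ_finite f))⟩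

theorem coeff_sp₀ (f : H.A) (m : ℕ) :
    (H.sp₀ f).coeff m = H.σ m (coeff m (f : PowerSeries D)) := rfl

/-- The total symbol as a ring map. -/
noncomputable def sp : H.A →+* Polynomial R where
  toFun := H.sp₀
  map_one' := by
    ext m
    rw [coeff_sp₀, Polynomial.coeff_one, OneMemClass.coe_one, coeff_one]
    split_ifs with h
    · subst h; exact H.σ_one
    · simp
  map_mul' f g := by
    ext m
    rw [coeff_sp₀, Polynomial.coeff_mul, MulMemClass.coe_mul, coeff_mul, map_sum]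
    refine sum_congr rfl fun x hx => ?_
    rw [← mem_antidiagonal.1 hx, coeff_sp₀, coeff_sp₀]
    exact H.σ_mul _ _ _ _ (f.2.1 _) (g.2.1 _)
  map_zero' := by ext m; simp [coeff_sp₀]
  map_add' f g := by ext m; simp [coeff_sp₀]

theorem coeff_sp (f : H.A) (m : ℕ) :
    (H.sp f).coeff m = H.σ m (coeff m (f : PowerSeries D)) := rfl

/-- Reduction modulo the parameter. -/
noncomputable def π : H.A →+* R := (Polynomial.evalRingHom 1).comp H.sp

theorem π_eq (f : H.A) (N : ℕ) (hN : ∀ m, N ≤ m → H.σ m (coeff m (f : PowerSeries D)) = 0) :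
    H.π f = ∑ m ∈ range N, H.σ m (coeff m (f : PowerSeries D)) := by
  have h : H.sp f = ∑ m ∈ range N, Polynomial.monomial m (H.σ m (coeff m (f : PowerSeries D))) := by
    ext m
    rw [coeff_sp, Polynomial.finsetSum_coeff]
    simp only [Polynomial.coeff_monomial]
    rw [sum_ite_eq']
    split_ifs with h
    · rfl
    · exact hN m (by simpa using h)
  simp [π, h, Polynomial.eval_finsetSum]

theorem σ_of_π {f : H.A} (h : H.π f = 0) (m : ℕ) : H.σ m (coeff m (f : PowerSeries D)) = 0 := by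
  obtain ⟨N, hN⟩ := H.σ_fin f
  by_cases hm : N ≤ m
  · exact hN m hm
  have h1 := congrArg (fun r => H.σ m (H.q m r)) (H.π_eq f N hN)
  simp only [h, map_zero, map_sum] at h1
  rw [sum_congr rfl fun n _ => H.indep m n _ (f.2.1 n), sum_ite_eq,
    if_pos (by simpa using hm)] at h1
  exact h1.symm

/-- Division by the parameter. -/
noncomputable def sh (f : PowerSeries D) : PowerSeries D := PowerSeries.mk fun p => coeff (p + 1) f

theorem sh_mem {f : H.A} (h : H.π f = 0) : sh (f : PowerSeries D) ∈ H.A := by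
  refine ⟨fun m => ?_, fun j => ?_⟩
  · rw [sh, coeff_mk]
    exact H.ker_succ _ _ (f.2.1 _) (H.σ_of_π h _)
  · obtain ⟨M, hM⟩ := f.2.2 (j + 1)
    exact ⟨M, fun m hm => by rw [sh, coeff_mk, add_assoc]; exact hM m hm⟩

theorem eq_sh {f : H.A} (h : H.π f = 0) : (f : PowerSeries D) = X * sh (f : PowerSeries D) := by
  have h0 : constantCoeff (f : PowerSeries D) = 0 := by
    rw [← coeff_zero_eq_constantCoeff_apply]
    exact H.ker_zero _ (f.2.1 _) (H.σ_of_π h _)
  have := eq_X_mul_shift_add_const (f : PowerSeries D)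
  rwa [h0, map_zero, add_zero] at this

theorem π_X_smul (f : H.A) : H.π ((X : PowerSeries ℂ) • f) = 0 := by
  have : H.sp ((X : PowerSeries ℂ) • f) = 0 := by
    ext m
    rw [coeff_sp, coe_X_smul]
    rcases m with _ | m
    · simp
    · rw [coeff_succ_X_mul, Polynomial.coeff_zero]
      exact H.σ_succ _ _ (f.2.1 _)
  simp [π, this]

theorem π_eq_zero (f : H.A) : H.π f = 0 ↔ ∃ b, f = (X : PowerSeries ℂ) • b := by
  refine ⟨fun h => ⟨⟨_, H.sh_mem h⟩, Subtype.ext ?_⟩, ?_⟩
  · rw [coe_X_smul]; exact H.eq_sh h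
  · rintro ⟨b, rfl⟩; exact H.π_X_smul b

theorem π_C (c : ℂ) : H.π (algebraMap (PowerSeries ℂ) H.A (C c)) = algebraMap ℂ R c := by
  have h : ((algebraMap (PowerSeries ℂ) H.A (C c) : H.A) : PowerSeries D) =
      C (algebraMap ℂ D c) := by
    change PowerSeries.map (algebraMap ℂ D) (C c) = _
    rw [map_C]
  rw [H.π_eq _ 1, sum_range_one, h, coeff_zero_C, Algebra.algebraMap_eq_smul_one, map_smul,
    H.σ_one, Algebra.algebraMap_eq_smul_one]
  intro m hm
  rw [h, coeff_C, if_neg (by omega), map_zero]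

theorem conv (P Q : Polynomial R) : ∃ T : Polynomial R,
    (∀ n, T.coeff n = ∑ x ∈ antidiagonal n, br (P.coeff x.1) (Q.coeff x.2)) ∧
      T.eval 1 = br (P.eval 1) (Q.eval 1) := by
  induction P using Polynomial.induction_on' with
  | add P P' h h' =>
    obtain ⟨T, h1, h2⟩ := h
    obtain ⟨T', h1', h2'⟩ := h'
    refine ⟨T + T', fun n => ?_, ?_⟩
    · simp [h1, h1', sum_add_distrib]
    · simp [h2, h2']
  | monomial a r =>
    induction Q using Polynomial.induction_on' with
    | add Q Q' h h' =>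
      obtain ⟨T, h1, h2⟩ := h
      obtain ⟨T', h1', h2'⟩ := h'
      refine ⟨T + T', fun n => ?_, ?_⟩
      · simp only [Polynomial.coeff_add, h1, h1', map_add, sum_add_distrib]
      · simp only [Polynomial.eval_add, h2, h2', map_add]
    | monomial b s =>
      refine ⟨Polynomial.monomial (a + b) (br r s), fun n => ?_, by simp⟩
      rw [Polynomial.coeff_monomial]
      split_ifs with h
      · rw [sum_eq_single_of_mem (a, b) (by simpa using h)]
        · simp
        · rintro ⟨i, j⟩ _ hne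
          simp only [Polynomial.coeff_monomial]
          split_ifs with h1 h2
          · subst h1 h2; exact absurd rfl hne
          all_goals simp
      · symm
        refine sum_eq_zero ?_
        rintro ⟨i, j⟩ hij
        simp only [Polynomial.coeff_monomial]
        split_ifs with h1 h2
        · subst h1 h2; exact absurd (mem_antidiagonal.1 hij) h
        all_goals simp

theorem comm_π (a b : H.A) :
    ∃ c, a * b - b * a = (X : PowerSeries ℂ) • c ∧ H.π c = br (H.π a) (H.π b) := by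
  have h0 : H.π (a * b - b * a) = 0 := by rw [map_sub, map_mul, map_mul, mul_comm, sub_self]
  refine ⟨⟨_, H.sh_mem h0⟩, Subtype.ext ?_, ?_⟩
  · rw [coe_X_smul]; exact H.eq_sh h0
  obtain ⟨T, h1, h2⟩ := conv (br := br) (H.sp a) (H.sp b)
  have : T = Polynomial.X * H.sp ⟨_, H.sh_mem h0⟩ := by
    ext n
    rw [h1]
    rcases n with _ | n
    · simp only [Finset.Nat.antidiagonal_zero, sum_singleton, Polynomial.mul_coeff_zero,
        Polynomial.coeff_X_zero, zero_mul, coeff_sp]
      exact H.br_zero _ (a.2.1 _) _ (b.2.1 _)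
    · rw [Polynomial.coeff_X_mul, coeff_sp]
      change _ = H.σ n (coeff n (sh ((a : PowerSeries D) * b - b * a)))
      rw [sh, coeff_mk, map_sub, coeff_mul, coeff_mul,
        ← Finset.Nat.sum_antidiagonal_swap (f := fun p => coeff p.1 (b : PowerSeries D) *
          coeff p.2 (a : PowerSeries D)), ← sum_sub_distrib, map_sum]
      refine sum_congr rfl fun x hx => ?_
      rw [coeff_sp, coeff_sp]
      exact (H.comm _ _ _ _ _ (a.2.1 _) (b.2.1 _) (mem_antidiagonal.1 hx)).symm
  rw [this] at h2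
  simpa [π] using h2

end Data

end Pool.Agent.Lib.MP_b538eb_ag
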